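import Pool.Agent.Helper65.PE.Hermite

/-!
# A criterion for a real number to be a rational combination of `1` and `e`
-/

set_option autoImplicit false

open Filter Topology

namespace Pool.Agent.Helper65.PE

/-- the signed distance to the nearest integer -/
noncomputable def sd (x : ℝ) : ℝ := x - round x

/-- the normalised signed distance of `g n * Q n * α` to the nearest integer -/
noncomputable def sq (g : ℕ → ℕ) (α : ℝ) (n : ℕ) : ℝ :=
  (-1) ^ n * ((2 * n + 1).factorial / ((n.factorial : ℝ) * g n)) * sd (g n * Q n * α)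

/-- admissible multipliers: each divides the next one, with quotient at most `n + 1`, and every positive integer
divides one of them -/
structure Mult (g : ℕ → ℕ) : Prop where
  pos : ∀ n, 0 < g n
  dvd : ∀ n, g n ∣ g (n + 1)
  le : ∀ n, g (n + 1) ≤ (n + 1) * g n
  all : ∀ m, 0 < m → ∃ n, m ∣ g n

theorem mult_factorial : Mult Nat.factorial where
  pos := Nat.factorial_pos
  dvd n := by
    rw [Nat.factorial_succ]
    exact Dvd.intro_left _ rfl
  le n := (Nat.factorial_succ n).le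
  all m hm := ⟨m, Nat.dvd_factorial hm le_rfl⟩

variable {g : ℕ → ℕ}

theorem Mult.dvd_of_le (hg : Mult g) {n m : ℕ} (h : n ≤ m) : g n ∣ g m := by
  induction m, h using Nat.le_induction with
  | base => exact dvd_rfl
  | succ m hm ih => exact ih.trans (hg.dvd m)

theorem Mult.le_factorial (hg : Mult g) (n : ℕ) : g n ≤ n.factorial * g 0 := by
  induction n with
  | zero => simp
  | succ n ih =>
    rw [Nat.factorial_succ]
    calc g (n + 1) ≤ (n + 1) * g n := hg.le n
      _ ≤ (n + 1) * (n.factorial * g 0) := Nat.mul_le_mul_left _ ih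
      _ = _ := by ring

theorem Mult.eventually_dvd (hg : Mult g) {m : ℕ} (hm : 0 < m) : ∀ᶠ n in atTop, m ∣ g n := by
  obtain ⟨n, hn⟩ := hg.all m hm
  filter_upwards [eventually_ge_atTop n] with k hk
  exact hn.trans (hg.dvd_of_le hk)

theorem sd_int_add (m : ℤ) {x : ℝ} (h : |x| < 1 / 2) : sd (m + x) = x := by
  unfold sd
  have h1 : round ((m : ℝ) + x) = m := by
    rw [round_intCast_add]
    have h2 : round x = 0 := by
      rw [round_eq_zero_iff]
      rw [abs_lt] at h
      exact ⟨h.1.le, h.2⟩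
    rw [h2, add_zero]
  rw [h1]
  ring

theorem abs_sd_le (x : ℝ) : |sd x| ≤ 1 / 2 := abs_sub_round x

theorem rat_mul_int {N : ℕ} {x : ℚ} (h : x.den ∣ N) : ∃ m : ℤ, (x : ℝ) * N = m := by
  obtain ⟨c, hc⟩ := h
  refine ⟨x.num * c, ?_⟩
  have h1 : (x : ℝ) * x.den = x.num := by exact_mod_cast Rat.mul_den_eq_num x
  rw [hc]
  push_cast
  rw [← mul_assoc, h1]

/-- the dependent case -/
theorem sd_of_rat (hg : Mult g) {x y : ℚ} {α : ℝ} (hα : α = x * Real.exp 1 + y) : ∀ᶠ n in atTop,
    sd (g n * Q n * α) = (-1) ^ n * (x * (g n * (J n / n.factorial))) := by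
  have h1 : Tendsto (fun n => (|(x : ℝ)| * g 0) * J n) atTop (𝓝 0) := by
    simpa using tendsto_J_zero.const_mul (|(x : ℝ)| * g 0)
  filter_upwards [h1.eventually_lt_const (show (0 : ℝ) < 1 / 2 by norm_num),
    hg.eventually_dvd x.den_pos, hg.eventually_dvd y.den_pos] with n hn hx hy
  obtain ⟨m1, hm1⟩ := rat_mul_int (x := x) hx
  obtain ⟨m2, hm2⟩ := rat_mul_int (x := y) hy
  have h2 := hermite n
  have hf : (0 : ℝ) < n.factorial := by exact_mod_cast Nat.factorial_pos n
  have e : (g n : ℝ) * Q n * α = ((m1 * P n + m2 * Q n : ℤ) : ℝ) + (-1) ^ n * (x * (g n * (J n / n.factorial))) := by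
    rw [hα]
    push_cast
    rw [← hm1, ← hm2]
    calc (g n : ℝ) * Q n * (x * Real.exp 1 + y) =
        x * g n * ((Q n : ℝ) * Real.exp 1 - P n) + x * g n * P n + y * g n * Q n := by ring
      _ = _ := by rw [h2]; ring
  rw [e, sd_int_add]
  have hgn : (0 : ℝ) ≤ g n := Nat.cast_nonneg _
  have hJ : 0 ≤ J n / n.factorial := div_nonneg (J_pos n).le hf.le
  rw [abs_mul, abs_pow, abs_neg, abs_one, one_pow, one_mul, abs_mul, abs_of_nonneg (mul_nonneg hgn hJ)]
  refine lt_of_le_of_lt ?_ hn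
  have h3 : (g n : ℝ) ≤ n.factorial * g 0 := by exact_mod_cast hg.le_factorial n
  calc |(x : ℝ)| * (g n * (J n / n.factorial)) ≤ |(x : ℝ)| * ((n.factorial * g 0) * (J n / n.factorial)) := by
        gcongr
    _ = |(x : ℝ)| * g 0 * J n := by field_simp

theorem sq_eq (g : ℕ → ℕ) (α : ℝ) (n : ℕ) : sq g α n =
    (-1) ^ n * ((n.factorial / (g n : ℝ)) * (sd (g n * Q n * α) / W n)) := by
  unfold sq
  rw [W_eq, mul_assoc]
  congr 1
  have h1 : (0 : ℝ) < n.factorial := by exact_mod_cast Nat.factorial_pos _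
  have h2 : (0 : ℝ) < (2 * n + 1).factorial := by exact_mod_cast Nat.factorial_pos _
  field_simp

theorem tendsto_sq (hg : Mult g) {x y : ℚ} {α : ℝ} (hα : α = x * Real.exp 1 + y) :
    Tendsto (sq g α) atTop (𝓝 (x * Real.exp (1 / 2))) := by
  have h1 : Tendsto (fun n => (x : ℝ) * (J n / W n)) atTop (𝓝 (x * Real.exp (1 / 2))) := tendsto_J.const_mul _
  refine h1.congr' ?_
  filter_upwards [sd_of_rat hg hα] with n hn
  rw [sq_eq, hn]
  have h2 : (-1 : ℝ) ^ n * (-1) ^ n = 1 := by rw [← mul_pow]; norm_num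
  have h3 : (g n : ℝ) ≠ 0 := by exact_mod_cast (hg.pos n).ne'
  have h4 : (n.factorial : ℝ) ≠ 0 := by exact_mod_cast (Nat.factorial_pos n).ne'
  calc (x : ℝ) * (J n / W n) = ((-1 : ℝ) ^ n * (-1) ^ n) * (x * (J n / W n)) := by rw [h2, one_mul]
    _ = _ := by
      field_simp

/-! ### the gap -/

theorem num_ineq (n : ℕ) : (1 : ℝ) / (5 * (((n : ℝ) + 3) * (n + 4))) +
    ((4 * n + 6) * (n + 2) * (1 / (5 * (((n : ℝ) + 2) * (n + 3)))) +
      ((n + 1) * (n + 2)) * (1 / (5 * (((n : ℝ) + 1) * (n + 2))))) < 1 := by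
  have h : (0 : ℝ) ≤ n := Nat.cast_nonneg n
  have h1 : (4 * n + 6) * (n + 2) * (1 / (5 * (((n : ℝ) + 2) * (n + 3)))) = (4 * n + 6) / (5 * (n + 3)) := by
    field_simp
  have h2 : ((n + 1) * (n + 2)) * (1 / (5 * (((n : ℝ) + 1) * (n + 2)))) = 1 / 5 := by
    field_simp
  have h3 : (1 : ℝ) / (5 * (((n : ℝ) + 3) * (n + 4))) ≤ 1 / (5 * (n + 3)) := by
    apply one_div_le_one_div_of_le (by positivity)
    nlinarith
  have h4 : (1 : ℝ) / (5 * (n + 3)) + ((4 * n + 6) / (5 * (n + 3)) + 1 / 5) < 1 := by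
    rw [← add_assoc, ← add_div, div_add_div _ _ (by positivity) (by norm_num), div_lt_one (by positivity)]
    nlinarith
  rw [h1, h2]
  linarith

/-- if `g n * Q n * α` is always very near an integer then `α` is a rational combination of `1` and `e` -/
theorem gap (hg : Mult g) {α : ℝ}
    (h : ∀ᶠ n : ℕ in atTop, |sd (g n * Q n * α)| ≤ 1 / (5 * (((n : ℝ) + 1) * (n + 2)))) :
    ∃ x y : ℚ, α = x * Real.exp 1 + y := by
  obtain ⟨N, hN⟩ := eventually_atTop.1 h
  choose a ha using hg.dvd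
  have hapos : ∀ n, 0 < a n := fun n => by
    rcases Nat.eq_zero_or_pos (a n) with h0 | h0
    · have := hg.pos (n + 1)
      rw [ha n, h0, mul_zero] at this
      exact absurd this (lt_irrefl _)
    · exact h0
  have hale : ∀ n, a n ≤ n + 1 := fun n => by
    have h1 := hg.le n
    rw [ha n, mul_comm] at h1
    exact Nat.le_of_mul_le_mul_right h1 (hg.pos n)
  have hale' : ∀ n, (a n : ℝ) ≤ n + 1 := fun n => by exact_mod_cast hale n
  -- the nearest integers satisfy the recurrence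
  set R : ℕ → ℤ := fun n => round ((g n : ℝ) * Q n * α) with hR
  have hη : ∀ n, (g n : ℝ) * Q n * α = R n + sd (g n * Q n * α) := fun n => by
    unfold sd
    rw [hR]
    ring
  have hrec : ∀ n, N ≤ n → R (n + 2) = (4 * n + 6) * a (n + 1) * R (n + 1) + a n * a (n + 1) * R n := by
    intro n hn
    have b0 := hN n hn
    have b1 := hN (n + 1) (by omega)
    have b2 := hN (n + 2) (by omega)
    push_cast at b1 b2
    have e0 := hη n
    have e1 := hη (n + 1)
    have e2 := hη (n + 2)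
    have e : ((R (n + 2) - ((4 * n + 6) * a (n + 1) * R (n + 1) + a n * a (n + 1) * R n) : ℤ) : ℝ) =
        ((4 * n + 6) * a (n + 1) * sd (g (n + 1) * Q (n + 1) * α) + a n * a (n + 1) * sd (g n * Q n * α)) -
          sd (g (n + 2) * Q (n + 2) * α) := by
      have hA : (g (n + 2) : ℝ) * Q (n + 2) * α = (4 * n + 6) * a (n + 1) * (g (n + 1) * Q (n + 1) * α) +
          a n * a (n + 1) * (g n * Q n * α) := by
        have g1 : (g (n + 1) : ℝ) = g n * a n := by exact_mod_cast ha n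
        have g2 : (g (n + 2) : ℝ) = g (n + 1) * a (n + 1) := by exact_mod_cast ha (n + 1)
        rw [Q_succ, g2, g1]
        push_cast
        ring
      rw [e0, e1, e2] at hA
      push_cast
      linarith
    have hlt : |((R (n + 2) - ((4 * n + 6) * a (n + 1) * R (n + 1) + a n * a (n + 1) * R n) : ℤ) : ℝ)| < 1 := by
      rw [e]
      refine lt_of_le_of_lt ?_ (num_ineq n)
      have hn0 : (0 : ℝ) ≤ n := Nat.cast_nonneg n
      have ha0 := hale' n
      have ha1 := hale' (n + 1)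
      push_cast at ha1
      have p0 : (0 : ℝ) ≤ a n := Nat.cast_nonneg _
      have p1 : (0 : ℝ) ≤ a (n + 1) := Nat.cast_nonneg _
      have t1 : |(4 * (n : ℝ) + 6) * a (n + 1) * sd (g (n + 1) * Q (n + 1) * α)| ≤
          (4 * n + 6) * (n + 2) * (1 / (5 * (((n : ℝ) + 2) * (n + 3)))) := by
        rw [abs_mul, abs_of_nonneg (by positivity : (0 : ℝ) ≤ (4 * n + 6) * a (n + 1))]
        refine mul_le_mul (mul_le_mul_of_nonneg_left (by linarith) (by positivity)) ?_ (abs_nonneg _) (by positivity)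
        refine b1.trans (le_of_eq ?_)
        ring
      have t0 : |(a n : ℝ) * a (n + 1) * sd (g n * Q n * α)| ≤
          ((n + 1) * (n + 2)) * (1 / (5 * (((n : ℝ) + 1) * (n + 2)))) := by
        rw [abs_mul, abs_of_nonneg (by positivity : (0 : ℝ) ≤ a n * a (n + 1))]
        exact mul_le_mul (mul_le_mul ha0 (by linarith) p1 (by positivity)) b0 (abs_nonneg _) (by positivity)
      refine (abs_sub _ _).trans ?_
      have t2 : |sd (g (n + 2) * Q (n + 2) * α)| ≤ 1 / (5 * (((n : ℝ) + 3) * (n + 4))) := by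
        refine b2.trans (le_of_eq ?_)
        ring
      have t3 := abs_add_le ((4 * (n : ℝ) + 6) * a (n + 1) * sd (g (n + 1) * Q (n + 1) * α))
        (a n * a (n + 1) * sd (g n * Q n * α))
      linarith
    have h0 : R (n + 2) - ((4 * n + 6) * a (n + 1) * R (n + 1) + a n * a (n + 1) * R n) = 0 := by
      rw [← Int.abs_lt_one_iff]
      exact_mod_cast hlt
    linarith
  -- divide by the multipliers
  set S : ℕ → ℚ := fun n => (R n : ℚ) / g n with hS
  have hgq : ∀ n, (g n : ℚ) ≠ 0 := fun n => by exact_mod_cast (hg.pos n).ne'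
  have hSrec : ∀ n, N ≤ n → S (n + 2) = (4 * n + 6) * S (n + 1) + S n := by
    intro n hn
    have g1 : (g (n + 1) : ℚ) = g n * a n := by exact_mod_cast ha n
    have g2 : (g (n + 2) : ℚ) = g (n + 1) * a (n + 1) := by exact_mod_cast ha (n + 1)
    have a0 : (a n : ℚ) ≠ 0 := by exact_mod_cast (hapos n).ne'
    have a1 : (a (n + 1) : ℚ) ≠ 0 := by exact_mod_cast (hapos (n + 1)).ne'
    have g0 := hgq n
    rw [hS]
    simp only
    rw [hrec n hn, g2, g1]
    push_cast
    field_simp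
  clear_value S
  -- solve for the coefficients
  set D : ℤ := (P (N + 1) : ℤ) * Q N - P N * Q (N + 1) with hD
  have hD0 : (D : ℚ) ≠ 0 := Int.cast_ne_zero.2 (det_ne N)
  set x : ℚ := (S (N + 1) * Q N - S N * Q (N + 1)) / D with hx
  set y : ℚ := (P (N + 1) * S N - P N * S (N + 1)) / D with hy
  have hcomb : ∀ n, N ≤ n → S n = x * P n + y * Q n ∧ S (n + 1) = x * P (n + 1) + y * Q (n + 1) := by
    intro n hn
    induction n, hn using Nat.le_induction with
    | base =>
      have hDq : (D : ℚ) = P (N + 1) * Q N - P N * Q (N + 1) := by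
        rw [hD]
        push_cast
        ring
      constructor
      · rw [hx, hy, div_mul_eq_mul_div, div_mul_eq_mul_div, ← add_div, eq_div_iff hD0, hDq]
        ring
      · rw [hx, hy, div_mul_eq_mul_div, div_mul_eq_mul_div, ← add_div, eq_div_iff hD0, hDq]
        ring
    | succ n hn ih =>
      refine ⟨ih.2, ?_⟩
      rw [show n + 1 + 1 = n + 2 from rfl, hSrec n hn, P_succ, Q_succ]
      push_cast
      rw [ih.1, ih.2]
      ring
  refine ⟨x, y, ?_⟩
  -- pass to the limit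
  have hlim : Tendsto (fun n : ℕ => α - (x * Real.exp 1 + y)) atTop (𝓝 0) := by
    have hbound : ∀ n, N ≤ n → 1 ≤ n →
        |α - (x * Real.exp 1 + y)| ≤ (1 / 2 + |(x : ℝ)| * g 0 * J n) * (1 / n) := by
      intro n hn hn1
      have hgn : (0 : ℝ) < g n := by exact_mod_cast hg.pos n
      have hgn1 : (1 : ℝ) ≤ g n := by exact_mod_cast hg.pos n
      have hf : (0 : ℝ) < n.factorial := by exact_mod_cast Nat.factorial_pos n
      have h1 : (R n : ℝ) = g n * (x * P n + y * Q n) := by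
        have h1q : (R n : ℚ) = g n * (x * P n + y * Q n) := by
          rw [← (hcomb n hn).1, hS]
          simp only
          rw [mul_div_cancel₀ _ (hgq n)]
        exact_mod_cast h1q
      have h2 := hη n
      have h3 := hermite n
      have hQ : (n : ℝ) ≤ Q n := by exact_mod_cast le_Q n
      have hn0 : (0 : ℝ) < n := by exact_mod_cast hn1
      have hQ0 : (0 : ℝ) < Q n := hn0.trans_le hQ
      have hA : (n : ℝ) ≤ g n * Q n := by nlinarith
      have hA0 : (0 : ℝ) < g n * Q n := mul_pos hgn hQ0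
      have e : (g n : ℝ) * Q n * (α - (x * Real.exp 1 + y)) =
          sd (g n * Q n * α) - x * (g n * ((-1) ^ n * (J n / n.factorial))) := by
        rw [← h3]
        have : (g n : ℝ) * Q n * (α - (x * Real.exp 1 + y)) =
            g n * Q n * α - g n * (x * P n + y * Q n) - x * (g n * ((Q n : ℝ) * Real.exp 1 - P n)) := by ring
        rw [this, ← h1]
        linarith
      have hJ : 0 ≤ J n / n.factorial := div_nonneg (J_pos n).le hf.le
      have hgf : (g n : ℝ) ≤ n.factorial * g 0 := by exact_mod_cast hg.le_factorial n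
      have h4 : |(g n : ℝ) * Q n * (α - (x * Real.exp 1 + y))| ≤ 1 / 2 + |(x : ℝ)| * g 0 * J n := by
        rw [e]
        refine (abs_sub _ _).trans (add_le_add (abs_sd_le _) ?_)
        rw [abs_mul, abs_mul, abs_mul, abs_pow, abs_neg, abs_one, one_pow, one_mul, abs_of_nonneg hJ,
          abs_of_pos hgn]
        calc |(x : ℝ)| * (g n * (J n / n.factorial)) ≤ |(x : ℝ)| * ((n.factorial * g 0) * (J n / n.factorial)) := by
              gcongr
          _ = |(x : ℝ)| * g 0 * J n := by field_simp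
      rw [abs_mul, abs_of_pos hA0] at h4
      have h5 : |α - (x * Real.exp 1 + y)| ≤ (1 / 2 + |(x : ℝ)| * g 0 * J n) / (g n * Q n) := by
        rw [le_div_iff₀ hA0]
        linarith
      refine h5.trans ?_
      rw [mul_one_div]
      have h6 : 0 ≤ 1 / 2 + |(x : ℝ)| * g 0 * J n := by
        have := (J_pos n).le
        positivity
      exact div_le_div_of_nonneg_left h6 hn0 hA
    refine squeeze_zero_norm' (a := fun n : ℕ => (1 / 2 + |(x : ℝ)| * g 0 * J n) * (1 / n)) ?_ ?_
    · filter_upwards [eventually_ge_atTop N, eventually_ge_atTop 1] with n hn hn1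
      rw [Real.norm_eq_abs]
      exact hbound n hn hn1
    · have h1 : Tendsto (fun n => 1 / 2 + |(x : ℝ)| * g 0 * J n) atTop (𝓝 (1 / 2 + |(x : ℝ)| * g 0 * 0)) :=
        (tendsto_J_zero.const_mul _).const_add _
      have h2 := h1.mul tendsto_one_div_atTop_nhds_zero_nat
      simpa using h2
  have := tendsto_nhds_unique tendsto_const_nhds hlim
  linarith

theorem frequently_of_not (hg : Mult g) {α : ℝ} (h : ¬ ∃ x y : ℚ, α = x * Real.exp 1 + y) :
    ∃ᶠ n : ℕ in atTop, 1 / (5 * (((n : ℝ) + 1) * (n + 2))) < |sd (g n * Q n * α)| := by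
  by_contra hc
  rw [not_frequently] at hc
  exact h (gap hg (hc.mono fun n hn => not_lt.1 hn))

/-- in the independent case the normalised sequence is unbounded -/
theorem unbounded_of_frequently (hg : Mult g) {α : ℝ}
    (h : ∃ᶠ n : ℕ in atTop, 1 / (5 * (((n : ℝ) + 1) * (n + 2))) < |sd (g n * Q n * α)|) (C : ℝ) :
    ∃ᶠ n : ℕ in atTop, C < |sq g α n| := by
  have h1 : Tendsto (fun n : ℕ => (n : ℝ) ^ 2 / 4 ^ n) atTop (𝓝 0) :=
    tendsto_pow_const_div_const_pow_of_one_lt 2 (by norm_num)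
  have h2 : ∀ᶠ n : ℕ in atTop, (n : ℝ) ^ 2 / 4 ^ n < 1 / (30 * ((|C| + 1) * g 0)) := by
    have : (0 : ℝ) < g 0 := by exact_mod_cast hg.pos 0
    exact h1.eventually_lt_const (by positivity)
  refine (h.and_eventually (h2.and (eventually_ge_atTop 1))).mono ?_
  rintro n ⟨hn1, hn2, hn3⟩
  have hgn : (0 : ℝ) < g n := by exact_mod_cast hg.pos n
  have hg0 : (0 : ℝ) < g 0 := by exact_mod_cast hg.pos 0
  have hf : (0 : ℝ) < n.factorial := by exact_mod_cast Nat.factorial_pos n
  have hgf : (g n : ℝ) ≤ n.factorial * g 0 := by exact_mod_cast hg.le_factorial n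
  have hW := W_pos n
  rw [sq_eq, abs_mul, abs_pow, abs_neg, abs_one, one_pow, one_mul, abs_mul, abs_div, abs_of_pos hf, abs_of_pos hgn,
    abs_div, abs_of_pos hW]
  have hn0 : (1 : ℝ) ≤ n := by exact_mod_cast hn3
  have h4 : (0 : ℝ) < 4 ^ n := by positivity
  have hq : 1 / (g 0 : ℝ) ≤ n.factorial / g n := by
    rw [div_le_div_iff₀ hg0 hgn]
    linarith
  have h7 : |C| + 1 ≤ 1 / (g 0 : ℝ) * (|sd (g n * Q n * α)| / W n) := by
    have h8 : (|C| + 1) * g 0 * W n ≤ |sd (g n * Q n * α)| := by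
      refine le_trans ?_ hn1.le
      have h9 : (|C| + 1) * g 0 * W n ≤ (|C| + 1) * g 0 * (1 / 4 ^ n) := by
        refine mul_le_mul_of_nonneg_left ?_ (by positivity)
        have := W_le n
        rwa [one_div_pow] at this
      refine h9.trans ?_
      rw [div_lt_div_iff₀ h4 (by positivity), one_mul] at hn2
      rw [mul_one_div, div_le_div_iff₀ h4 (by positivity), one_mul]
      have h10 : ((n : ℝ) + 1) * (n + 2) ≤ 6 * n ^ 2 := by nlinarith
      have h11 : 0 ≤ (|C| + 1) * g 0 := by positivity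
      have h12 := mul_le_mul_of_nonneg_left h10 h11
      nlinarith
    rw [one_div, ← div_eq_inv_mul, le_div_iff₀ hg0, le_div_iff₀ hW]
    exact h8
  calc C ≤ |C| := le_abs_self C
    _ < |C| + 1 := by linarith
    _ ≤ 1 / (g 0 : ℝ) * (|sd (g n * Q n * α)| / W n) := h7
    _ ≤ _ := mul_le_mul_of_nonneg_right hq (div_nonneg (abs_nonneg _) hW.le)

theorem unbounded_of_not (hg : Mult g) {α : ℝ} (h : ¬ ∃ x y : ℚ, α = x * Real.exp 1 + y) (C : ℝ) :
    ∃ᶠ n : ℕ in atTop, C < |sq g α n| :=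
  unbounded_of_frequently hg (frequently_of_not hg h) C

/-- `α` is not of the form `x e + y` if and only if the distances are large infinitely often. -/
theorem not_iff_frequently (hg : Mult g) (α : ℝ) : (¬ ∃ x y : ℚ, α = x * Real.exp 1 + y) ↔
    ∃ᶠ n : ℕ in atTop, 1 / (5 * (((n : ℝ) + 1) * (n + 2))) < |sd (g n * Q n * α)| := by
  refine ⟨frequently_of_not hg, fun h => ?_⟩
  rintro ⟨x, y, hxy⟩
  have h1 := tendsto_sq hg hxy
  have h3 : ∀ᶠ n in atTop, |sq g α n| < |x * Real.exp (1 / 2)| + 1 :=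
    h1.abs.eventually_lt_const (by linarith)
  obtain ⟨n, hn1, hn2⟩ := ((unbounded_of_frequently hg h (|x * Real.exp (1 / 2)| + 1)).and_eventually h3).exists
  linarith

/-! ### exponents -/

theorem factorial_le_Q : ∀ n : ℕ, n.factorial ≤ Q n
  | 0 => by simp [Q]
  | 1 => by simp [Q]
  | n + 2 => by
    rw [Q_succ, Nat.factorial_succ]
    have := factorial_le_Q (n + 1)
    nlinarith

theorem Q_le : ∀ n : ℕ, n.factorial * Q n ≤ (2 * n + 1).factorial
  | 0 => by simp [Q]
  | 1 => by simp [Q, Nat.factorial]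
  | n + 2 => by
    have h0 := Q_le n
    have h1 := Q_le (n + 1)
    have e1 : (n + 1).factorial = (n + 1) * n.factorial := Nat.factorial_succ n
    have e2 : (n + 2).factorial = (n + 2) * ((n + 1) * n.factorial) := by
      rw [Nat.factorial_succ (n + 1), e1]
    have e3 : (2 * (n + 1) + 1).factorial = (2 * n + 3) * ((2 * n + 2) * (2 * n + 1).factorial) := by
      rw [show 2 * (n + 1) + 1 = (2 * n + 1) + 1 + 1 by ring, Nat.factorial_succ, Nat.factorial_succ]
    have e4 : (2 * (n + 2) + 1).factorial = (2 * n + 5) * ((2 * n + 4) * (2 * (n + 1) + 1).factorial) := by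
      rw [show 2 * (n + 2) + 1 = (2 * (n + 1) + 1) + 1 + 1 by ring, Nat.factorial_succ, Nat.factorial_succ]
      ring
    set F := (2 * n + 1).factorial with hF
    rw [e1, e3] at h1
    rw [e2, e4, e3, Q_succ]
    calc (n + 2) * ((n + 1) * n.factorial) * ((4 * n + 6) * Q (n + 1) + Q n)
        = (n + 2) * (4 * n + 6) * ((n + 1) * n.factorial * Q (n + 1)) +
            (n + 2) * (n + 1) * (n.factorial * Q n) := by ring
      _ ≤ (n + 2) * (4 * n + 6) * ((2 * n + 3) * ((2 * n + 2) * F)) + (n + 2) * (n + 1) * F :=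
          Nat.add_le_add (Nat.mul_le_mul_left _ h1) (Nat.mul_le_mul_left _ h0)
      _ ≤ (2 * n + 5) * ((2 * n + 4) * ((2 * n + 3) * ((2 * n + 2) * F))) := by
        have h : (n + 2) * (4 * n + 6) * ((2 * n + 3) * (2 * n + 2)) + (n + 2) * (n + 1) ≤
            (2 * n + 5) * ((2 * n + 4) * ((2 * n + 3) * (2 * n + 2))) := by nlinarith [sq_nonneg n]
        calc (n + 2) * (4 * n + 6) * ((2 * n + 3) * ((2 * n + 2) * F)) + (n + 2) * (n + 1) * F
            = ((n + 2) * (4 * n + 6) * ((2 * n + 3) * (2 * n + 2)) + (n + 2) * (n + 1)) * F := by ring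
          _ ≤ ((2 * n + 5) * ((2 * n + 4) * ((2 * n + 3) * (2 * n + 2)))) * F := Nat.mul_le_mul_right _ h
          _ = _ := by ring

theorem tendsto_fac_rpow {D δ : ℝ} (hD : 0 < D) (hδ : 0 < δ) :
    Tendsto (fun n : ℕ => D ^ n / (n.factorial : ℝ) ^ δ) atTop (𝓝 0) := by
  have h1 : Tendsto (fun n : ℕ => (D ^ (1 / δ)) ^ n / (n.factorial : ℝ)) atTop (𝓝 0) :=
    FloorSemiring.tendsto_pow_div_factorial_atTop _
  have h2 := h1.rpow_const (p := δ) (Or.inr hδ.le)
  rw [Real.zero_rpow hδ.ne'] at h2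
  refine h2.congr fun n => ?_
  have hf : (0 : ℝ) < n.factorial := by exact_mod_cast Nat.factorial_pos n
  rw [Real.div_rpow (by positivity) hf.le]
  congr 1
  rw [← Real.rpow_natCast, ← Real.rpow_mul hD.le, ← Real.rpow_natCast, ← Real.rpow_mul hD.le]
  congr 1
  field_simp

/-- a lower bound with an exponent less than one makes the normalised sequence unbounded -/
theorem unbounded_of_exponent (hg : Mult g) {α C δ : ℝ} (hδ : 0 < δ) (hC : ∀ n, (g n : ℝ) ≤ C ^ (n + 1))
    (h : ∃ᶠ n : ℕ in atTop, ((g n : ℝ) * Q n) ^ (δ - 1) < |sd (g n * Q n * α)|) (M : ℝ) :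
    ∃ᶠ n : ℕ in atTop, M < |sq g α n| := by
  have hC1 : 1 ≤ C := by
    have h1 := hC 0
    have h2 : (1 : ℝ) ≤ g 0 := by exact_mod_cast hg.pos 0
    simp only [zero_add, pow_one] at h1
    linarith
  have hC0 : 0 < C := by linarith
  have h1 : Tendsto (fun n : ℕ => C ^ 2 * ((C ^ 2) ^ n / (n.factorial : ℝ) ^ δ)) atTop (𝓝 0) := by
    simpa using (tendsto_fac_rpow (D := C ^ 2) (by positivity) hδ).const_mul (C ^ 2)
  have h2 : ∀ᶠ n : ℕ in atTop, C ^ 2 * ((C ^ 2) ^ n / (n.factorial : ℝ) ^ δ) < 1 / (|M| + 1) :=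
    h1.eventually_lt_const (by positivity)
  refine (h.and_eventually h2).mono ?_
  rintro n ⟨hn1, hn2⟩
  have hgn : (0 : ℝ) < g n := by exact_mod_cast hg.pos n
  have hgn1 : (1 : ℝ) ≤ g n := by exact_mod_cast hg.pos n
  have hf : (0 : ℝ) < n.factorial := by exact_mod_cast Nat.factorial_pos n
  have hQ : (n.factorial : ℝ) ≤ Q n := by exact_mod_cast factorial_le_Q n
  have hQ0 : (0 : ℝ) < Q n := hf.trans_le hQ
  have hQle : (n.factorial : ℝ) * Q n ≤ (2 * n + 1).factorial := by exact_mod_cast Q_le n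
  have hF : (0 : ℝ) < (2 * n + 1).factorial := by exact_mod_cast Nat.factorial_pos _
  have hNQ : (0 : ℝ) < g n * Q n := mul_pos hgn hQ0
  -- the size of the sequence
  have e0 : |sq g α n| = (2 * n + 1).factorial / ((n.factorial : ℝ) * g n) * |sd (g n * Q n * α)| := by
    unfold sq
    rw [abs_mul, abs_mul, abs_pow, abs_neg, abs_one, one_pow, one_mul, abs_of_pos (by positivity)]
  have e1 : (Q n : ℝ) / g n ≤ (2 * n + 1).factorial / ((n.factorial : ℝ) * g n) := by
    rw [div_le_div_iff₀ hgn (by positivity)]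
    nlinarith
  have e2 : (n.factorial : ℝ) ^ δ / (g n) ^ 2 ≤ (Q n : ℝ) / g n * ((g n : ℝ) * Q n) ^ (δ - 1) := by
    rw [Real.rpow_sub_one hNQ.ne']
    have h3 : (n.factorial : ℝ) ^ δ ≤ ((g n : ℝ) * Q n) ^ δ := by
      refine Real.rpow_le_rpow hf.le ?_ hδ.le
      nlinarith
    have h4 : (Q n : ℝ) / g n * (((g n : ℝ) * Q n) ^ δ / (g n * Q n)) = ((g n : ℝ) * Q n) ^ δ / (g n) ^ 2 := by
      field_simp
    rw [h4]
    gcongr
  have hg2 : (g n : ℝ) ^ 2 ≤ C ^ 2 * (C ^ 2) ^ n := by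
    calc (g n : ℝ) ^ 2 ≤ (C ^ (n + 1)) ^ 2 := pow_le_pow_left₀ hgn.le (hC n) 2
      _ = C ^ 2 * (C ^ 2) ^ n := by ring
  have hfδ : 0 < (n.factorial : ℝ) ^ δ := Real.rpow_pos_of_pos hf δ
  have e3 : |M| + 1 < (n.factorial : ℝ) ^ δ / (g n) ^ 2 := by
    rw [lt_div_iff₀ (by positivity)]
    rw [mul_div_assoc', div_lt_div_iff₀ hfδ (by positivity), one_mul] at hn2
    have h5 : (|M| + 1) * (g n : ℝ) ^ 2 ≤ (|M| + 1) * (C ^ 2 * (C ^ 2) ^ n) :=
      mul_le_mul_of_nonneg_left hg2 (by positivity)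
    linarith
  have e4 : 0 < (Q n : ℝ) / g n := div_pos hQ0 hgn
  rw [e0]
  calc M ≤ |M| := le_abs_self M
    _ < |M| + 1 := by linarith
    _ < (n.factorial : ℝ) ^ δ / (g n) ^ 2 := e3
    _ ≤ (Q n : ℝ) / g n * ((g n : ℝ) * Q n) ^ (δ - 1) := e2
    _ ≤ (Q n : ℝ) / g n * |sd (g n * Q n * α)| := mul_le_mul_of_nonneg_left hn1.le e4.le
    _ ≤ _ := mul_le_mul_of_nonneg_right e1 (abs_nonneg _)

end Pool.Agent.Helper65.PE
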