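import Mathlib

/-!
# Hermite's approximations to `e`
-/

set_option autoImplicit false

open MeasureTheory Filter Topology

namespace Pool.Agent.Helper65.PE

/-- The integers `1, 1, 7, 71, 1001, …`: the denominators of Hermite's approximations to `e`. -/
def Q : ℕ → ℕ
  | 0 => 1
  | 1 => 1
  | n + 2 => (4 * n + 6) * Q (n + 1) + Q n

/-- The integers `1, 3, 19, 193, 2721, …`: the numerators. -/
def P : ℕ → ℕ
  | 0 => 1
  | 1 => 3
  | n + 2 => (4 * n + 6) * P (n + 1) + P n

theorem Q_succ (n : ℕ) : Q (n + 2) = (4 * n + 6) * Q (n + 1) + Q n := by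
  rw [Q]

theorem P_succ (n : ℕ) : P (n + 2) = (4 * n + 6) * P (n + 1) + P n := by
  rw [P]

theorem Q_pos : ∀ n : ℕ, 0 < Q n
  | 0 => by simp [Q]
  | 1 => by simp [Q]
  | n + 2 => by
    rw [Q_succ]
    have := Q_pos (n + 1)
    positivity

theorem le_Q : ∀ n : ℕ, n ≤ Q n
  | 0 => by simp [Q]
  | 1 => by simp [Q]
  | n + 2 => by
    rw [Q_succ]
    have := le_Q (n + 1)
    nlinarith

theorem det_ne : ∀ n : ℕ, (P (n + 1) : ℤ) * Q n - P n * Q (n + 1) ≠ 0
  | 0 => by simp [P, Q]
  | n + 1 => by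
    have h := det_ne n
    have e : (P (n + 1 + 1) : ℤ) * Q (n + 1) - P (n + 1) * Q (n + 1 + 1) =
        -((P (n + 1) : ℤ) * Q n - P n * Q (n + 1)) := by
      rw [show n + 1 + 1 = n + 2 from rfl, P_succ, Q_succ]
      push_cast
      ring
    rw [e]
    exact neg_ne_zero.2 h

/-! ### the integrals -/

/-- the integral of `(x (1 - x)) ^ n e ^ x` -/
noncomputable def J (n : ℕ) : ℝ := ∫ x in (0 : ℝ)..1, (x * (1 - x)) ^ n * Real.exp x

/-- the integral of `(x (1 - x)) ^ n` -/
noncomputable def W (n : ℕ) : ℝ := ∫ x in (0 : ℝ)..1, (x * (1 - x)) ^ n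

theorem J_zero : J 0 = Real.exp 1 - 1 := by
  unfold J
  simp

theorem J_one : J 1 = 3 - Real.exp 1 := by
  unfold J
  have h : ∀ x ∈ Set.uIcc (0 : ℝ) 1, HasDerivAt (fun x : ℝ => (-x ^ 2 + 3 * x - 3) * Real.exp x)
      ((x * (1 - x)) ^ 1 * Real.exp x) x := by
    intro x _
    have h1 : HasDerivAt (fun x : ℝ => -x ^ 2 + 3 * x - 3) (-(2 * x) + 3) x := by
      have := (((hasDerivAt_pow 2 x).neg).add ((hasDerivAt_id x).const_mul 3)).sub_const 3
      refine this.congr_deriv ?_
      norm_num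
    refine (h1.mul (Real.hasDerivAt_exp x)).congr_deriv ?_
    ring
  rw [intervalIntegral.integral_eq_sub_of_hasDerivAt h (by apply Continuous.intervalIntegrable; fun_prop)]
  norm_num
  ring

theorem J_rec (n : ℕ) : J (n + 2) = (n + 1) * (n + 2) * J n - (4 * n + 6) * (n + 2) * J (n + 1) := by
  have h : ∀ x ∈ Set.uIcc (0 : ℝ) 1, HasDerivAt
      (fun x : ℝ => ((x * (1 - x)) ^ (n + 2) - (n + 2) * (x * (1 - x)) ^ (n + 1) * (1 - 2 * x)) * Real.exp x)
      ((x * (1 - x)) ^ (n + 2) * Real.exp x - (n + 1) * (n + 2) * ((x * (1 - x)) ^ n * Real.exp x) +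
        (4 * n + 6) * (n + 2) * ((x * (1 - x)) ^ (n + 1) * Real.exp x)) x := by
    intro x _
    have hw : HasDerivAt (fun x : ℝ => x * (1 - x)) (1 - 2 * x) x := by
      refine ((hasDerivAt_id x).mul ((hasDerivAt_id x).const_sub 1)).congr_deriv ?_
      simp only [id]
      ring
    have hw' : HasDerivAt (fun x : ℝ => 1 - 2 * x) (-2) x := by
      refine (((hasDerivAt_id x).const_mul 2).const_sub 1).congr_deriv ?_
      ring
    have h2 := (hw.pow (n + 2)).sub (((hw.pow (n + 1)).const_mul ((n : ℝ) + 2)).mul hw')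
    have h3 := h2.mul (Real.hasDerivAt_exp x)
    refine (h3.congr_deriv ?_)
    simp only [Pi.pow_apply, Pi.sub_apply, Pi.mul_apply]
    push_cast
    have e1 : (x * (1 - x)) ^ (n + 2) = (x * (1 - x)) ^ n * (x * (1 - x)) ^ 2 := pow_add _ _ _
    have e2 : (x * (1 - x)) ^ (n + 1) = (x * (1 - x)) ^ n * (x * (1 - x)) := pow_succ _ _
    simp only [e1, e2]
    ring
  have hint := intervalIntegral.integral_eq_sub_of_hasDerivAt h (by apply Continuous.intervalIntegrable; fun_prop)
  have hI : ∀ m : ℕ, IntervalIntegrable (fun x : ℝ => (x * (1 - x)) ^ m * Real.exp x) volume 0 1 := fun m => by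
    apply Continuous.intervalIntegrable
    fun_prop
  rw [intervalIntegral.integral_add ((hI _).sub ((hI _).const_mul _)) ((hI _).const_mul _),
    intervalIntegral.integral_sub (hI _) ((hI _).const_mul _), intervalIntegral.integral_const_mul, intervalIntegral.integral_const_mul] at hint
  have h0 : J (n + 2) - (n + 1) * (n + 2) * J n + (4 * n + 6) * (n + 2) * J (n + 1) = 0 := by
    unfold J
    rw [hint]
    simp
  linarith

theorem hermite : ∀ n : ℕ, (Q n : ℝ) * Real.exp 1 - P n = (-1) ^ n * (J n / n.factorial)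
  | 0 => by
    rw [J_zero]
    simp [P, Q]
  | 1 => by
    rw [J_one]
    simp [P, Q]
  | n + 2 => by
    have h1 := hermite n
    have h2 := hermite (n + 1)
    have hf : (n.factorial : ℝ) ≠ 0 := by exact_mod_cast (Nat.factorial_pos n).ne'
    have f1 : ((n + 1).factorial : ℝ) = (n + 1) * n.factorial := by
      rw [Nat.factorial_succ]
      push_cast
      ring
    have f2 : ((n + 2).factorial : ℝ) = (n + 2) * ((n + 1) * n.factorial) := by
      rw [Nat.factorial_succ (n + 1)]
      push_cast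
      rw [f1]
      ring
    have e : (-1 : ℝ) ^ (n + 2) = (-1) ^ n := by rw [pow_add]; norm_num
    have e' : (-1 : ℝ) ^ (n + 1) = -(-1) ^ n := by rw [pow_succ]; ring
    rw [e', f1] at h2
    rw [e, f2, Q_succ, P_succ, J_rec]
    push_cast
    calc ((4 * (n : ℝ) + 6) * Q (n + 1) + Q n) * Real.exp 1 - ((4 * n + 6) * P (n + 1) + P n)
        = (4 * n + 6) * ((Q (n + 1) : ℝ) * Real.exp 1 - P (n + 1)) + ((Q n : ℝ) * Real.exp 1 - P n) := by ring
      _ = _ := by
        rw [h1, h2]
        have hn1 : (n : ℝ) + 1 ≠ 0 := by positivity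
        have hn2 : (n : ℝ) + 2 ≠ 0 := by positivity
        field_simp
        ring

theorem W_zero : W 0 = 1 := by
  unfold W
  simp

theorem W_rec (n : ℕ) : (4 * n + 6) * W (n + 1) = (n + 1) * W n := by
  have h : ∀ x ∈ Set.uIcc (0 : ℝ) 1, HasDerivAt
      (fun x : ℝ => (x * (1 - x)) ^ (n + 1) * (1 - 2 * x))
      ((n + 1) * (x * (1 - x)) ^ n - (4 * n + 6) * (x * (1 - x)) ^ (n + 1)) x := by
    intro x _
    have hw : HasDerivAt (fun x : ℝ => x * (1 - x)) (1 - 2 * x) x := by
      refine ((hasDerivAt_id x).mul ((hasDerivAt_id x).const_sub 1)).congr_deriv ?_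
      simp only [id]
      ring
    have hw' : HasDerivAt (fun x : ℝ => 1 - 2 * x) (-2) x := by
      refine (((hasDerivAt_id x).const_mul 2).const_sub 1).congr_deriv ?_
      ring
    refine ((hw.pow (n + 1)).mul hw').congr_deriv ?_
    simp only [Pi.pow_apply]
    push_cast
    have e2 : (x * (1 - x)) ^ (n + 1) = (x * (1 - x)) ^ n * (x * (1 - x)) := pow_succ _ _
    simp only [e2]
    ring
  have hint := intervalIntegral.integral_eq_sub_of_hasDerivAt h (by apply Continuous.intervalIntegrable; fun_prop)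
  have hI : ∀ m : ℕ, IntervalIntegrable (fun x : ℝ => (x * (1 - x)) ^ m) volume 0 1 := fun m => by
    apply Continuous.intervalIntegrable
    fun_prop
  rw [intervalIntegral.integral_sub ((hI _).const_mul _) ((hI _).const_mul _), intervalIntegral.integral_const_mul, intervalIntegral.integral_const_mul] at hint
  have h0 : (n + 1) * W n - (4 * n + 6) * W (n + 1) = 0 := by
    unfold W
    rw [hint]
    simp
  linarith

theorem W_eq (n : ℕ) : W n = (n.factorial : ℝ) ^ 2 / (2 * n + 1).factorial := by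
  induction n with
  | zero => rw [W_zero]; simp
  | succ n ih =>
    have h := W_rec n
    rw [ih] at h
    have h1 : ((2 * (n + 1) + 1).factorial : ℝ) = (2 * n + 3) * (2 * n + 2) * (2 * n + 1).factorial := by
      rw [show 2 * (n + 1) + 1 = (2 * n + 1) + 1 + 1 by ring, Nat.factorial_succ, Nat.factorial_succ]
      push_cast
      ring
    have h2 : ((n + 1).factorial : ℝ) = (n + 1) * n.factorial := by
      rw [Nat.factorial_succ]
      push_cast
      ring
    have h3 : (0 : ℝ) < (2 * n + 1).factorial := by exact_mod_cast Nat.factorial_pos _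
    have h4 : (0 : ℝ) < 4 * n + 6 := by positivity
    rw [h1, h2]
    have h5 : W (n + 1) = (n + 1) * ((n.factorial : ℝ) ^ 2 / (2 * n + 1).factorial) / (4 * n + 6) := by
      rw [eq_div_iff h4.ne']
      linarith
    rw [h5]
    field_simp
    ring

theorem W_pos (n : ℕ) : 0 < W n := by
  rw [W_eq]
  have h1 : (0 : ℝ) < n.factorial := by exact_mod_cast Nat.factorial_pos _
  have h2 : (0 : ℝ) < (2 * n + 1).factorial := by exact_mod_cast Nat.factorial_pos _
  positivity

theorem W_le (n : ℕ) : W n ≤ (1 / 4) ^ n := by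
  induction n with
  | zero => rw [W_zero]; simp
  | succ n ih =>
    have h := W_rec n
    have hp := W_pos n
    have h4 : (0 : ℝ) < 4 * n + 6 := by positivity
    have h5 : W (n + 1) = (n + 1) * W n / (4 * n + 6) := by
      rw [eq_div_iff h4.ne']
      linarith
    rw [h5, pow_succ, div_le_iff₀ h4]
    have : W n * (n + 1) ≤ (1 / 4) ^ n * (n + 1) := mul_le_mul_of_nonneg_right ih (by positivity)
    have h6 : (0 : ℝ) ≤ (1 / 4) ^ n := by positivity
    nlinarith

theorem W_lin (n : ℕ) : ∫ x in (0 : ℝ)..1, (x * (1 - x)) ^ n * (x - 1 / 2) = 0 := by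
  have h : ∀ x ∈ Set.uIcc (0 : ℝ) 1, HasDerivAt
      (fun x : ℝ => -(1 / (2 * ((n : ℝ) + 1))) * (x * (1 - x)) ^ (n + 1))
      ((x * (1 - x)) ^ n * (x - 1 / 2)) x := by
    intro x _
    have hw : HasDerivAt (fun x : ℝ => x * (1 - x)) (1 - 2 * x) x := by
      refine ((hasDerivAt_id x).mul ((hasDerivAt_id x).const_sub 1)).congr_deriv ?_
      simp only [id]
      ring
    refine ((hw.pow (n + 1)).const_mul _).congr_deriv ?_
    push_cast
    have hn : (n : ℝ) + 1 ≠ 0 := by positivity
    field_simp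
    ring
  rw [intervalIntegral.integral_eq_sub_of_hasDerivAt h (by apply Continuous.intervalIntegrable; fun_prop)]
  simp

theorem J_bounds (n : ℕ) : Real.exp (1 / 2) * W n ≤ J n ∧
    J n ≤ Real.exp (1 / 2) * (W n * (1 + 1 / (8 * n + 12))) := by
  have hI : ∀ m : ℕ, IntervalIntegrable (fun x : ℝ => (x * (1 - x)) ^ m) volume 0 1 := fun m => by
    apply Continuous.intervalIntegrable
    fun_prop
  have hL : IntervalIntegrable (fun x : ℝ => (x * (1 - x)) ^ n * (x - 1 / 2)) volume 0 1 := by
    apply Continuous.intervalIntegrable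
    fun_prop
  have hJ : IntervalIntegrable (fun x : ℝ => (x * (1 - x)) ^ n * Real.exp x) volume 0 1 := by
    apply Continuous.intervalIntegrable
    fun_prop
  have hE : ∀ x : ℝ, Real.exp x = Real.exp (1 / 2) * Real.exp (x - 1 / 2) := fun x => by
    rw [← Real.exp_add]
    congr 1
    ring
  have hpos : ∀ x ∈ Set.Icc (0 : ℝ) 1, 0 ≤ (x * (1 - x)) ^ n := fun x hx => by
    have : 0 ≤ x * (1 - x) := mul_nonneg hx.1 (by linarith [hx.2])
    positivity
  constructor
  · have h1 : ∫ x in (0 : ℝ)..1, (Real.exp (1 / 2) * (x * (1 - x)) ^ n +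
        Real.exp (1 / 2) * ((x * (1 - x)) ^ n * (x - 1 / 2))) = Real.exp (1 / 2) * W n := by
      rw [intervalIntegral.integral_add ((hI n).const_mul _) (hL.const_mul _), intervalIntegral.integral_const_mul, intervalIntegral.integral_const_mul, W_lin,
        mul_zero, add_zero]
      rfl
    rw [← h1]
    unfold J
    refine intervalIntegral.integral_mono_on zero_le_one (((hI n).const_mul _).add (hL.const_mul _)) hJ fun x hx => ?_
    rw [hE x]
    have h2 := Real.add_one_le_exp (x - 1 / 2)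
    have h3 := hpos x hx
    have h4 := Real.exp_pos (1 / 2)
    calc Real.exp (1 / 2) * (x * (1 - x)) ^ n + Real.exp (1 / 2) * ((x * (1 - x)) ^ n * (x - 1 / 2))
        = (x * (1 - x)) ^ n * (Real.exp (1 / 2) * (x - 1 / 2 + 1)) := by ring
      _ ≤ _ := mul_le_mul_of_nonneg_left (mul_le_mul_of_nonneg_left h2 h4.le) h3
  · have h1 : ∫ x in (0 : ℝ)..1, ((Real.exp (1 / 2) * (5 / 4)) * (x * (1 - x)) ^ n +
        Real.exp (1 / 2) * ((x * (1 - x)) ^ n * (x - 1 / 2)) - Real.exp (1 / 2) * (x * (1 - x)) ^ (n + 1)) =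
        Real.exp (1 / 2) * (5 / 4) * W n - Real.exp (1 / 2) * W (n + 1) := by
      rw [intervalIntegral.integral_sub (((hI n).const_mul _).add (hL.const_mul _)) ((hI (n + 1)).const_mul _),
        intervalIntegral.integral_add ((hI n).const_mul _) (hL.const_mul _), intervalIntegral.integral_const_mul, intervalIntegral.integral_const_mul, W_lin,
        intervalIntegral.integral_const_mul, mul_zero, add_zero]
      rfl
    have h2 : Real.exp (1 / 2) * (5 / 4) * W n - Real.exp (1 / 2) * W (n + 1) =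
        Real.exp (1 / 2) * (W n * (1 + 1 / (8 * n + 12))) := by
      have h4 : (0 : ℝ) < 4 * n + 6 := by positivity
      have h5 : W (n + 1) = (n + 1) * W n / (4 * n + 6) := by
        rw [eq_div_iff h4.ne']
        linarith [W_rec n]
      have h6 : (8 : ℝ) * n + 12 ≠ 0 := by positivity
      rw [h5]
      field_simp
      ring
    rw [← h2, ← h1]
    unfold J
    refine intervalIntegral.integral_mono_on zero_le_one hJ ((((hI n).const_mul _).add (hL.const_mul _)).sub
      ((hI (n + 1)).const_mul _)) fun x hx => ?_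
    rw [hE x]
    have h3 := hpos x hx
    have h4 := Real.exp_pos (1 / 2)
    have h5 : Real.exp (x - 1 / 2) ≤ 1 + (x - 1 / 2) + (x - 1 / 2) ^ 2 := by
      have := Real.abs_exp_sub_one_sub_id_le (x := x - 1 / 2) (abs_le.2 ⟨by linarith [hx.1], by linarith [hx.2]⟩)
      linarith [le_abs_self (Real.exp (x - 1 / 2) - 1 - (x - 1 / 2))]
    calc (x * (1 - x)) ^ n * (Real.exp (1 / 2) * Real.exp (x - 1 / 2))
        ≤ (x * (1 - x)) ^ n * (Real.exp (1 / 2) * (1 + (x - 1 / 2) + (x - 1 / 2) ^ 2)) :=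
          mul_le_mul_of_nonneg_left (mul_le_mul_of_nonneg_left h5 h4.le) h3
      _ = _ := by
        rw [pow_succ]
        ring

theorem J_pos (n : ℕ) : 0 < J n :=
  lt_of_lt_of_le (mul_pos (Real.exp_pos _) (W_pos n)) (J_bounds n).1

/-- the normalised integrals converge -/
theorem tendsto_J : Tendsto (fun n => J n / W n) atTop (𝓝 (Real.exp (1 / 2))) := by
  have h1 : ∀ n : ℕ, Real.exp (1 / 2) ≤ J n / W n := fun n => by
    rw [le_div_iff₀ (W_pos n)]
    exact (J_bounds n).1
  have h2 : ∀ n : ℕ, J n / W n ≤ Real.exp (1 / 2) * (1 + 1 / (8 * n + 12)) := fun n => by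
    rw [div_le_iff₀ (W_pos n)]
    have := (J_bounds n).2
    linarith
  refine tendsto_of_tendsto_of_tendsto_of_le_of_le tendsto_const_nhds ?_ h1 h2
  have h3 : Tendsto (fun n : ℕ => (1 : ℝ) / (8 * n + 12)) atTop (𝓝 0) := by
    refine tendsto_const_nhds.div_atTop ?_
    refine tendsto_atTop_add_const_right _ _ ?_
    exact tendsto_natCast_atTop_atTop.const_mul_atTop (by norm_num)
  have h4 := (h3.const_add 1).const_mul (Real.exp (1 / 2))
  simpa using h4

theorem tendsto_J_zero : Tendsto J atTop (𝓝 0) := by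
  have h1 : ∀ n : ℕ, J n ≤ Real.exp (1 / 2) * (2 * (1 / 4) ^ n) := fun n => by
    refine (J_bounds n).2.trans (mul_le_mul_of_nonneg_left ?_ (Real.exp_pos _).le)
    have h2 : (1 : ℝ) / (8 * n + 12) ≤ 1 := by
      rw [div_le_one (by positivity)]
      have : (0 : ℝ) ≤ n := Nat.cast_nonneg n
      linarith
    have h3 := W_le n
    have h4 := W_pos n
    nlinarith
  refine squeeze_zero (fun n => (J_pos n).le) h1 ?_
  have h5 : Tendsto (fun n : ℕ => ((1 : ℝ) / 4) ^ n) atTop (𝓝 0) :=
    tendsto_pow_atTop_nhds_zero_of_lt_one (by norm_num) (by norm_num)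
  have := (h5.const_mul 2).const_mul (Real.exp (1 / 2))
  simpa using this

end Pool.Agent.Helper65.PE
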